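import Mathlib

namespace Pool.Agent.Results.MP_88e59f_gt.OmegaOne

open Set Topology Filter

/-- `X` is scattered: every nonempty `A ⊆ X` has a point isolated in `A`. -/
def Scattered (X : Type) [TopologicalSpace X] : Prop :=
  ∀ A : Set X, A.Nonempty → ∃ x ∈ A, ∃ U : Set X, IsOpen U ∧ U ∩ A = {x}

/-- Property wD: for every infinite closed discrete set `D` there are an infinite `D' ⊆ D` and a
discrete family `(U d)_{d ∈ D'}` of open sets with `d ∈ U d` (discrete: every point of the space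
has a neighbourhood meeting `U d` for at most one `d ∈ D'`). -/
def WD (Y : Type) [TopologicalSpace Y] : Prop :=
  ∀ D : Set Y, D.Infinite → IsClosed D → DiscreteTopology D →
    ∃ D' : Set Y, D' ⊆ D ∧ D'.Infinite ∧ ∃ U : Y → Set Y,
      (∀ d ∈ D', IsOpen (U d) ∧ d ∈ U d) ∧
      ∀ y : Y, ∃ V ∈ 𝓝 y, {d | d ∈ D' ∧ (U d ∩ V).Nonempty}.Subsingleton

/-- `X` satisfies wD hereditarily: every subspace of `X` satisfies wD. -/
def HereditarilyWD (X : Type) [TopologicalSpace X] : Prop :=
  ∀ A : Set X, WD A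

/-- `X` is bisequential: every ultrafilter converging to `x` contains a decreasing sequence of
sets converging to `x`. -/
def Bisequential (X : Type) [TopologicalSpace X] : Prop :=
  ∀ (x : X) (𝒰 : Ultrafilter X), (𝒰 : Filter X) ≤ 𝓝 x →
    ∃ A : ℕ → Set X, Antitone A ∧ (∀ n, A n ∈ 𝒰) ∧ ∀ V ∈ 𝓝 x, ∃ n, A n ⊆ V

section WellOrder

variable {X : Type} [LinearOrder X] [WellFoundedLT X] [TopologicalSpace X] [OrderTopology X]

lemma isOpen_Iic' (x : X) : IsOpen (Iic x) := by
  by_cases h : (Ioi x).Nonempty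
  · obtain ⟨y, hy, hmin⟩ := WellFounded.has_min (wellFounded_lt (α := X)) (Ioi x) h
    have : Iic x = Iio y := by
      ext z
      simp only [mem_Iic, mem_Iio]
      constructor
      · intro hz; exact lt_of_le_of_lt hz hy
      · intro hz
        by_contra hcon
        exact hmin z (not_le.mp hcon) hz
    rw [this]; exact isOpen_Iio
  · have : Iic x = univ := by
      ext z
      simp only [mem_Iic, mem_univ, iff_true]
      by_contra hcon
      exact h ⟨z, not_le.mp hcon⟩
    rw [this]; exact isOpen_univ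

lemma scattered : Scattered X := by
  intro A hA
  obtain ⟨x, hx, hmin⟩ := WellFounded.has_min (wellFounded_lt (α := X)) A hA
  refine ⟨x, hx, Iic x, isOpen_Iic' x, ?_⟩
  ext z
  simp only [mem_inter_iff, mem_Iic, mem_singleton_iff]
  constructor
  · rintro ⟨h1, h2⟩
    exact le_antisymm h1 (not_lt.mp (hmin z h2))
  · rintro rfl; exact ⟨le_rfl, hx⟩

omit [TopologicalSpace X] [OrderTopology X] in
lemma exists_strictMono {S : Set X} (hS : S.Infinite) :
    ∃ d : ℕ → X, StrictMono d ∧ ∀ n, d n ∈ S := by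
  let f := hS.natEmbedding
  obtain ⟨g, hg⟩ := exists_increasing_or_nonincreasing_subseq (· < ·) (fun n => (f n : X))
  rcases hg with hg | hg
  · refine ⟨fun n => (f (g n) : X), ?_, fun n => (f (g n)).2⟩
    intro m n hmn
    exact hg m n hmn
  · exfalso
    have hlt : ∀ m n, m < n → (f (g n) : X) < f (g m) := by
      intro m n hmn
      refine lt_of_le_of_ne (not_lt.mp (hg m n hmn)) ?_
      intro h
      have := f.injective (Subtype.ext h)
      have := g.injective this
      omega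
    have hwf := wellFounded_lt (α := X)
    obtain ⟨x, ⟨n, hn⟩, hmin⟩ := WellFounded.has_min hwf (range fun n => (f (g n) : X)) ⟨_, 0, rfl⟩
    exact hmin _ ⟨n + 1, rfl⟩ (hn ▸ hlt n (n + 1) (Nat.lt_succ_self n))

lemma hereditarilyWD (htop : ∃ t : X, ∀ x, x ≤ t) : HereditarilyWD X := by
  intro A D hD hcl hdisc
  have hS : ((↑) '' D : Set X).Infinite := hD.image Subtype.val_injective.injOn
  obtain ⟨d, hd, hdS⟩ := exists_strictMono hS
  choose e he using hdS
  have heD : ∀ n, e n ∈ D := fun n => (he n).1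
  have hed : ∀ n, (e n : X) = d n := fun n => (he n).2
  obtain ⟨t, ht⟩ := htop
  obtain ⟨δ, hδ, hmin⟩ := WellFounded.has_min (wellFounded_lt (α := X)) {b | ∀ n, d n ≤ b}
    ⟨t, fun n => ht _⟩
  simp only [mem_ofPred_eq] at hδ hmin
  have hlt : ∀ n, d n < δ := fun n => lt_of_lt_of_le (hd (Nat.lt_succ_self n)) (hδ (n + 1))
  have hcof : ∀ b < δ, ∃ n, b < d n := by
    intro b hb
    by_contra hcon
    push Not at hcon
    exact hmin b hcon hb
  -- the supremum is not in `A`
  have hnot : ∀ a : A, (a : X) ≠ δ := by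
    intro a ha
    have hacc : ∀ V ∈ 𝓝 a, ∃ n, e n ∈ V := by
      intro V hV
      obtain ⟨W, hW, hWV⟩ := mem_nhds_subtype A a V |>.mp hV
      rw [ha] at hW
      obtain ⟨l, hl, hl2⟩ := exists_Ioc_subset_of_mem_nhds hW ⟨d 0, hlt 0⟩
      obtain ⟨n, hn⟩ := hcof l hl
      refine ⟨n, hWV ?_⟩
      show (e n : X) ∈ W
      rw [hed n]
      exact hl2 ⟨hn, (hlt n).le⟩
    have haD : a ∈ D := by
      rw [← hcl.closure_eq, mem_closure_iff_nhds]
      intro V hV
      obtain ⟨n, hn⟩ := hacc V hV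
      exact ⟨e n, hn, heD n⟩
    have hopen : IsOpen ({(⟨a, haD⟩ : D)} : Set D) := isOpen_discrete _
    obtain ⟨V, hV, hVe⟩ := isOpen_induced_iff.mp hopen
    have haV : a ∈ V := by
      have : (⟨a, haD⟩ : D) ∈ Subtype.val ⁻¹' V := by rw [hVe]; rfl
      exact this
    obtain ⟨n, hn⟩ := hacc V (hV.mem_nhds haV)
    have : (⟨e n, heD n⟩ : D) ∈ Subtype.val ⁻¹' V := hn
    rw [hVe] at this
    have h2 : e n = a := congrArg Subtype.val this
    have h3 : d n = δ := by rw [← hed n, h2, ha]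
    exact (hlt n).ne h3
  have hUopen : ∀ n, IsOpen {a : A | (a : X) ≤ d n ∧ ∀ m < n, d m < (a : X)} := by
    intro n
    have h1 : IsOpen {x : X | x ≤ d n ∧ ∀ m < n, d m < x} := by
      have : {x : X | x ≤ d n ∧ ∀ m < n, d m < x} = Iic (d n) ∩ ⋂ m ∈ Iio n, Ioi (d m) := by
        ext x
        simp
      rw [this]
      exact (isOpen_Iic' _).inter ((finite_Iio n).isOpen_biInter fun _ _ => isOpen_Ioi)
    exact h1.preimage continuous_subtype_val
  have hUeq : ∀ n, {a : A | a ≤ e n ∧ ∀ m, d m < (e n : X) → d m < (a : X)} =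
      {a : A | (a : X) ≤ d n ∧ ∀ m < n, d m < (a : X)} := by
    intro n
    ext a
    simp only [mem_ofPred_eq, hed n, ← Subtype.coe_le_coe, hd.lt_iff_lt]
  have heinj : Function.Injective e := by
    intro m n h
    apply hd.injective
    rw [← hed m, ← hed n, h]
  refine ⟨range e, ?_, infinite_range_of_injective heinj,
    fun y => {a : A | a ≤ y ∧ ∀ m, d m < (y : X) → d m < (a : X)}, ?_, ?_⟩
  · rintro _ ⟨n, rfl⟩; exact heD n
  · rintro _ ⟨n, rfl⟩
    constructor
    · have := hUopen n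
      rw [← hUeq n] at this
      exact this
    · exact ⟨le_rfl, fun m hm => hm⟩
  · intro a
    by_cases hex : ∃ n, (a : X) ≤ d n
    · classical
      let n := Nat.find hex
      have hn : (a : X) ≤ d n := Nat.find_spec hex
      have hn2 : ∀ m < n, d m < (a : X) := fun m hm => not_le.mp (Nat.find_min hex hm)
      refine ⟨_, (hUopen n).mem_nhds ⟨hn, hn2⟩, ?_⟩
      have key : ∀ y ∈ {y | y ∈ range e ∧ ({a : A | a ≤ y ∧ ∀ m, d m < (y : X) → d m < (a : X)} ∩
          {a : A | (a : X) ≤ d n ∧ ∀ m < n, d m < (a : X)}).Nonempty}, y = e n := by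
        rintro y ⟨⟨k, rfl⟩, z, hz1, hz2⟩
        rw [hUeq k] at hz1
        rcases lt_trichotomy k n with h | h | h
        · exact absurd (hz2.2 k h) (not_lt.mpr hz1.1)
        · rw [h]
        · exact absurd (hz1.2 n h) (not_lt.mpr hz2.1)
      intro y hy y' hy'
      rw [key y hy, key y' hy']
    · push Not at hex
      have hδa : δ < (a : X) := by
        refine lt_of_le_of_ne ?_ (Ne.symm (hnot a))
        by_contra hcon
        obtain ⟨n, hn⟩ := hcof _ (not_le.mp hcon)
        exact lt_asymm hn (hex n)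
      refine ⟨{z : A | δ < (z : X)}, (isOpen_Ioi.preimage continuous_subtype_val).mem_nhds hδa, ?_⟩
      rintro y ⟨⟨k, rfl⟩, z, hz1, hz2⟩
      replace hz1 : z ∈ {a : A | a ≤ e k ∧ ∀ m, d m < (e k : X) → d m < (a : X)} := hz1
      rw [hUeq k] at hz1
      exact absurd hz1.1 (not_le.mpr ((hlt k).trans hz2))

lemma compact (htop : ∃ t : X, ∀ x, x ≤ t) : CompactSpace X := by
  constructor
  rw [isCompact_iff_ultrafilter_le_nhds]
  intro 𝒰 _
  obtain ⟨t, ht⟩ := htop
  have hne : {x : X | Iic x ∈ 𝒰}.Nonempty := by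
    refine ⟨t, ?_⟩
    have : Iic t = univ := by ext z; simp [ht z]
    simp only [mem_ofPred_eq, this]
    exact univ_mem
  obtain ⟨x, hx, hmin⟩ := WellFounded.has_min (wellFounded_lt (α := X)) _ hne
  simp only [mem_ofPred_eq] at hx hmin
  refine ⟨x, mem_univ _, ?_⟩
  rw [OrderTopology.topology_eq_generate_intervals (α := X)] at *
  rw [TopologicalSpace.nhds_generateFrom]
  simp only [le_iInf_iff]
  intro s hs
  obtain ⟨hxs, a, ha⟩ := hs
  rw [le_principal_iff]
  rcases ha with rfl | rfl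
  · -- `s = Ioi a`
    have h1 : Iic a ∉ 𝒰 := fun h => hmin a h hxs
    have h2 := (Ultrafilter.compl_mem_iff_notMem).mpr h1
    rwa [compl_Iic] at h2
  · exact mem_of_superset hx (fun z hz => lt_of_le_of_lt hz hxs)

end WellOrder

lemma not_bisequential {X : Type} [LinearOrder X] [WellFoundedLT X] [OrderTop X]
    [TopologicalSpace X] [OrderTopology X]
    (hc : ∀ s : Set X, s.Countable → (∀ x ∈ s, x < ⊤) → ∃ b, b < ⊤ ∧ ∀ x ∈ s, x < b) :
    ¬ Bisequential X := by
  intro hB
  have hne : (𝓝[<] (⊤ : X)).NeBot := by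
    rw [← mem_closure_iff_nhdsWithin_neBot, mem_closure_iff_nhds]
    intro V hV
    obtain ⟨b0, hb0, -⟩ := hc ∅ countable_empty (by simp)
    obtain ⟨l, hl, hl2⟩ := exists_Ioc_subset_of_mem_nhds hV ⟨b0, hb0⟩
    obtain ⟨b, hb, hb2⟩ := hc {l} (countable_singleton l) (by simpa using hl)
    exact ⟨b, hl2 ⟨hb2 l rfl, le_top⟩, hb⟩
  let 𝒰 := Ultrafilter.of (𝓝[<] (⊤ : X))
  have h𝒰 : (𝒰 : Filter X) ≤ 𝓝[<] (⊤ : X) := Ultrafilter.of_le _
  obtain ⟨A, hA, hmem, hconv⟩ := hB ⊤ 𝒰 (h𝒰.trans nhdsWithin_le_nhds)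
  have hIio : Iio (⊤ : X) ∈ 𝒰 := h𝒰 self_mem_nhdsWithin
  have hx : ∀ n, ∃ x, x ∈ A n ∩ Iio ⊤ := fun n =>
    Ultrafilter.nonempty_of_mem (inter_mem (hmem n) hIio)
  choose x hx using hx
  obtain ⟨b, hb, hb2⟩ := hc (range x) (countable_range x) (by rintro _ ⟨n, rfl⟩; exact (hx n).2)
  obtain ⟨n, hn⟩ := hconv (Ioi b) (Ioi_mem_nhds hb)
  exact lt_asymm (hb2 _ ⟨n, rfl⟩) (hn (hx n).1)

/-- In ZFC there is a compact Hausdorff scattered space satisfying wD hereditarily which is not
bisequential, namely `ω₁ + 1` with the order topology. -/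
theorem result : ∃ (X : Type) (_ : TopologicalSpace X),
    CompactSpace X ∧ T2Space X ∧ Scattered X ∧ HereditarilyWD X ∧ ¬ Bisequential X := by
  let Y := (Cardinal.aleph 1).ord.ToType
  have hY : ∀ y : Y, (Iio y).Countable := by
    intro y
    exact (Cardinal.countable_iff_lt_aleph_one _).mpr (Cardinal.mk_Iio_toType_ord_lt y)
  have hYunc : ¬ (univ : Set Y).Countable := by
    rw [Cardinal.countable_iff_lt_aleph_one, Cardinal.mk_univ, Cardinal.mk_ord_toType]
    exact lt_irrefl _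
  let _ : TopologicalSpace (WithTop Y) := Preorder.topology (WithTop Y)
  have : OrderTopology (WithTop Y) := ⟨rfl⟩
  refine ⟨WithTop Y, inferInstance, compact ⟨⊤, fun _ => le_top⟩, inferInstance, scattered,
    hereditarilyWD ⟨⊤, fun _ => le_top⟩, not_bisequential ?_⟩
  intro s hs hlt
  let T : Set Y := {y | (y : WithTop Y) ∈ s}
  have hT : T.Countable := hs.preimage WithTop.coe_injective
  have hU : (⋃ y ∈ T, Iic y).Countable := by
    refine hT.biUnion fun y _ => ?_
    rw [← Iio_union_right]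
    exact (hY y).union (countable_singleton y)
  have : ∃ b : Y, b ∉ ⋃ y ∈ T, Iic y := by
    by_contra hcon
    push Not at hcon
    apply hYunc
    exact hU.mono (fun b _ => hcon b)
  obtain ⟨b, hb⟩ := this
  refine ⟨b, WithTop.coe_lt_top b, ?_⟩
  intro x hx
  have hx' := hlt x hx
  obtain ⟨y, rfl⟩ := WithTop.ne_top_iff_exists.mp hx'.ne
  rw [WithTop.coe_lt_coe]
  simp only [mem_iUnion, mem_Iic, not_exists] at hb
  exact not_le.mp (hb y hx)

end Pool.Agent.Results.MP_88e59f_gt.OmegaOne
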